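import Pool.Agent.P.MP_d71b46_an.Ball

set_option autoImplicit false

namespace Pool.Agent.Results.MP_d71b46_an.BallResidual

/-- There is a real Banach space whose closed unit ball is not dentable (with radius 1), while a
residual set of functionals attain their norm, and do so at two points of the unit ball at
distance 2. -/
theorem result :
    ∃ (X : Type) (_ : NormedAddCommGroup X) (_ : NormedSpace ℝ X) (_ : CompleteSpace X),
      (∀ x ∈ Metric.closedBall (0 : X) 1,
        x ∈ closure (convexHull ℝ (Metric.closedBall (0 : X) 1 \ Metric.ball x 1))) ∧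
      {f : X →L[ℝ] ℝ | ∃ y z : X, ‖y‖ ≤ 1 ∧ ‖z‖ ≤ 1 ∧ f y = ‖f‖ ∧ f z = ‖f‖ ∧ ‖y - z‖ = 2} ∈
        residual (X →L[ℝ] ℝ) := by
  obtain ⟨X, _, _, _, h⟩ := Pool.Agent.P.MP_d71b46_an.Ball.main
  exact ⟨X, inferInstance, inferInstance, inferInstance,
    Pool.Agent.P.MP_d71b46_an.Ball.not_dent (dense_of_mem_residual h), h⟩

end Pool.Agent.Results.MP_d71b46_an.BallResidual
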